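import Pool.Agent.Helper78.JT.Goals2
import Pool.Agent.Helper8.DT.NPRCPW

set_option autoImplicit false

/-!
# Project JT, packet PJB: the number of the seeds is polynomial
-/

namespace Pool.Agent.Helper73.JT

open Pool.Agent.Helper78.DT Pool.Agent.Helper78.JT

theorem zlc_eq (hC : CpwStmt) (cap : ℕ) (R d : ℕ → ℕ) (m : ℕ) (h1 : 1 ≤ cap)
    (hR : ∀ j < m, 1 ≤ R j) (h : ∀ j < m, R j ^ d j ≤ cap) :
    ∀ l ≤ m, Zlc cap R d l = Zl R d l := by
  intro l
  induction l with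
  | zero => intro _; rfl
  | succ l ih =>
    intro hl
    have hl' : l < m := hl
    unfold Zlc Zl
    rw [ih hl'.le, hC cap _ _ h1 (hR l hl'), min_eq_right (h l hl')]

theorem pjb (hT : TljStmt) : PjbStmt := by
  have hN : NprStmt := Pool.Agent.Helper8.DT.npr
  have hC : CpwStmt := Pool.Agent.Helper8.DT.cpw_eq
  intro c a e β
  set C' := bb a e with hC'
  set A := 1 + (c + 8) * C' with hA
  set B := 19 + (3 * c + 16) * C' with hB
  have hb2 : 2 ≤ C' := by
    rw [hC']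
    unfold bb
    have h1 : 1 ≤ (e + 1) * (e + 2) := Nat.one_le_iff_ne_zero.2 (by positivity)
    calc 2 ≤ 1 * (a + 5) := by omega
      _ ≤ (e + 1) * (e + 2) * (a + 5) := Nat.mul_le_mul_right _ h1
  refine ⟨2 * A + 8 + B * 2 ^ β * (6 * (c + 9) + 1), 1, fun L hL cap hcap => ?_⟩
  obtain ⟨t1, t2, t3, -⟩ := (hT a e).1 L hL
  set t := tj a e L with ht
  have hLp : 0 < L := hL
  have hP := hN (L ^ (c + 8)) (by positivity)
  have hP1 : 1 ≤ Pj c L := le_trans (Nat.one_le_iff_ne_zero.2 (by positivity)) hP.2.1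
  have hq1 : 1 ≤ qj c L := Nat.one_le_iff_ne_zero.2 (by unfold qj; positivity)
  have hqP : 0 < qj c L * Pj c L := Nat.mul_pos hq1 hP1
  have hPle : Pj c L ≤ 2 * L ^ (c + 8) := hP.2.2
  have h2t : 2 ^ t * 2 ^ t ≤ L := by
    refine le_trans ?_ t1
    rw [← pow_add]
    exact Nat.pow_le_pow_right (by norm_num) (by nlinarith)
  have hpow : ∀ k, L ^ k ≤ 2 ^ (k * C' * (t + 1)) := by
    intro k
    calc L ^ k ≤ (2 ^ (C' * (t + 1))) ^ k := Nat.pow_le_pow_left t2.le k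
      _ = 2 ^ (k * C' * (t + 1)) := by rw [← pow_mul]; congr 1; ring
  have ht1 : t + 1 ≤ 2 ^ t := Nat.lt_two_pow_self
  have ht1L : t + 1 ≤ L := ht1.trans (le_trans (Nat.le_mul_of_pos_right _ (by positivity)) h2t)
  -- first factor
  have hP2 : Pj c L ≤ 2 ^ (A * (t + 1)) := by
    calc Pj c L ≤ 2 * L ^ (c + 8) := hPle
      _ ≤ 2 * 2 ^ ((c + 8) * C' * (t + 1)) := Nat.mul_le_mul_left 2 (hpow _)
      _ = 2 ^ (1 + (c + 8) * C' * (t + 1)) := by rw [pow_add, pow_one]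
      _ ≤ 2 ^ (A * (t + 1)) := Nat.pow_le_pow_right (by norm_num) (by rw [hA]; nlinarith)
  have f1 : Pj c L ^ (t + 2) ≤ 2 ^ (2 * A * L) := by
    calc Pj c L ^ (t + 2) ≤ (2 ^ (A * (t + 1))) ^ (t + 2) := Nat.pow_le_pow_left hP2 _
      _ = 2 ^ (A * (t + 1) * (t + 2)) := by rw [← pow_mul]
      _ ≤ 2 ^ (2 * A * L) := by
        refine Nat.pow_le_pow_right (by norm_num) ?_
        have h1 : (t + 1) * (t + 2) ≤ 2 ^ t * (2 * 2 ^ t) := by
          refine Nat.mul_le_mul ht1 ?_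
          omega
        calc A * (t + 1) * (t + 2) = A * ((t + 1) * (t + 2)) := by ring
          _ ≤ A * (2 ^ t * (2 * 2 ^ t)) := Nat.mul_le_mul_left A h1
          _ = 2 * A * (2 ^ t * 2 ^ t) := by ring
          _ ≤ 2 * A * L := Nat.mul_le_mul_left _ h2t
  -- third factor
  have hqP3 : qj c L * Pj c L ≤ 2 ^ (B * (t + 1)) := by
    calc qj c L * Pj c L ≤ (2 ^ 18 * L ^ (2 * c + 8)) * (2 * L ^ (c + 8)) :=
          Nat.mul_le_mul_left _ hPle
      _ = 2 ^ 19 * L ^ (3 * c + 16) := by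
        have : 3 * c + 16 = (2 * c + 8) + (c + 8) := by ring
        rw [this, pow_add L]
        ring
      _ ≤ 2 ^ 19 * 2 ^ ((3 * c + 16) * C' * (t + 1)) := Nat.mul_le_mul_left _ (hpow _)
      _ = 2 ^ (19 + (3 * c + 16) * C' * (t + 1)) := by rw [pow_add]
      _ ≤ 2 ^ (B * (t + 1)) := Nat.pow_le_pow_right (by norm_num) (by rw [hB]; nlinarith)
  have f3 : (qj c L * Pj c L) ^ Kj c a β e L ≤ 2 ^ (B * 2 ^ β * (6 * (c + 9) + 1) * L) := by
    calc (qj c L * Pj c L) ^ Kj c a β e L ≤ (2 ^ (B * (t + 1))) ^ Kj c a β e L :=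
          Nat.pow_le_pow_left hqP3 _
      _ = 2 ^ (B * (t + 1) * Kj c a β e L) := by rw [← pow_mul]
      _ ≤ 2 ^ (B * 2 ^ β * (6 * (c + 9) + 1) * L) := by
        refine Nat.pow_le_pow_right (by norm_num) ?_
        have h1 : (t + 1) * (6 * WW c L / (t + 1) + 1) ≤ (6 * (c + 9) + 1) * L := by
          have h2 : (t + 1) * (6 * WW c L / (t + 1)) ≤ 6 * WW c L := Nat.mul_div_le _ _
          calc (t + 1) * (6 * WW c L / (t + 1) + 1)
              = (t + 1) * (6 * WW c L / (t + 1)) + (t + 1) := by ring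
            _ ≤ 6 * WW c L + L := add_le_add h2 ht1L
            _ = (6 * (c + 9) + 1) * L := by unfold WW; ring
        calc B * (t + 1) * Kj c a β e L
            = B * 2 ^ β * ((t + 1) * (6 * WW c L / (t + 1) + 1)) := by unfold Kj; rw [← ht]; ring
          _ ≤ B * 2 ^ β * ((6 * (c + 9) + 1) * L) := Nat.mul_le_mul_left _ h1
          _ = B * 2 ^ β * (6 * (c + 9) + 1) * L := by ring
  have hcap1 : 1 ≤ cap := le_trans (Nat.one_le_two_pow) hcap
  have g : ∀ k, k ≤ 2 * A + 8 + B * 2 ^ β * (6 * (c + 9) + 1) → 2 ^ (k * L) ≤ cap := fun k hk =>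
    le_trans (Nat.pow_le_pow_right (by norm_num) (Nat.mul_le_mul_right L hk)) hcap
  -- second factor
  have hU1 : 1 ≤ Uj a e L := Nat.one_le_iff_ne_zero.2 (by unfold Uj; positivity)
  have hR1 : ∀ j < e + 1, 1 ≤ Rj a e L j := fun j _ =>
    le_trans (Nat.one_le_iff_ne_zero.2 (by positivity))
      (hN (2 ^ (Uj a e L ^ (j + 1))) (by positivity)).2.1
  have f2 : ∀ j < e + 1, Rj a e L j ^ dj a e L j ≤ 2 ^ (8 * L) := by
    intro j hj
    have hRle : Rj a e L j ≤ 2 * 2 ^ (Uj a e L ^ (j + 1)) :=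
      (hN (2 ^ (Uj a e L ^ (j + 1))) (by positivity)).2.2
    have hUj : 1 ≤ Uj a e L ^ (j + 1) := Nat.one_le_pow _ _ hU1
    have hR2 : Rj a e L j ≤ 2 ^ (2 * Uj a e L ^ (j + 1)) := by
      refine hRle.trans ?_
      rw [← pow_succ']
      exact Nat.pow_le_pow_right (by norm_num) (by omega)
    calc Rj a e L j ^ dj a e L j ≤ (2 ^ (2 * Uj a e L ^ (j + 1))) ^ dj a e L j :=
          Nat.pow_le_pow_left hR2 _
      _ = 2 ^ (2 * Uj a e L ^ (j + 1) * dj a e L j) := by rw [← pow_mul]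
      _ ≤ 2 ^ (8 * L) := by
        refine Nat.pow_le_pow_right (by norm_num) ?_
        have h1 : Uj a e L ^ (j + 1) * Uj a e L ^ (e + 1 - j) = Uj a e L ^ (e + 2) := by
          rw [← pow_add]
          congr 1
          omega
        calc 2 * Uj a e L ^ (j + 1) * dj a e L j
            = 8 * (Uj a e L ^ (j + 1) * Uj a e L ^ (e + 1 - j)) := by unfold dj; ring
          _ = 8 * Uj a e L ^ (e + 2) := by rw [h1]
          _ ≤ 8 * L := Nat.mul_le_mul_left 8 t3
  unfold Zcj ZZj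
  rw [← ht, hC cap _ _ hcap1 hP1, hC cap _ _ hcap1 hqP,
    min_eq_right (f1.trans (g _ (by omega))),
    zlc_eq hC cap _ _ (e + 1) hcap1 hR1 (fun j hj => (f2 j hj).trans (g 8 (by omega)))
      (e + 1) le_rfl,
    min_eq_right (f3.trans (g _ (by omega)))]

end Pool.Agent.Helper73.JT
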